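import Mathlib
import Pool.Agent.Lib.MP_a1ab69_an.Q1Nec

set_option autoImplicit false
open scoped ENNReal

namespace Pool.Agent.Results.MP_a1ab69_an.EvenLargeK

/-- Q1 (the text of the frozen statement) for all even `k` with `2 d ≤ 3 k`. -/
theorem result :
    ∀ d k : ℕ, 2 ≤ k → k + 2 ≤ d → Even k → 2 * d ≤ 3 * k →
    ∀ p r : ℝ≥0∞, 1 ≤ p → 1 ≤ r →
      ((∃ N : ℕ, ∃ C : ℝ,
          ∀ (F : Type) [Field F] [Fintype F] [DecidableEq F], N < ringChar F →
            ∀ f : (Fin d → F) → ℂ,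
              (Fintype.card F : ℝ) ^ (-(d : ℝ) * (r⁻¹).toReal) *
                ‖(WithLp.toLp r (fun y : Fin d → F =>
                    ((((Finset.univ.filter (fun x : Fin d → F =>
                        ∀ i : Fin d, k ≤ i.val →
                          ∑ l ∈ Finset.univ.filter (fun l : Fin d => l.val < k),
                              x l ^ (i.val - k + 2) = x i ^ (i.val - k + 2))).card : ℂ))⁻¹ *
                      ∑ x ∈ Finset.univ.filter (fun x : Fin d → F =>
                        ∀ i : Fin d, k ≤ i.val →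
                          ∑ l ∈ Finset.univ.filter (fun l : Fin d => l.val < k),
                              x l ^ (i.val - k + 2) = x i ^ (i.val - k + 2)),
                        f (y - x)))
                  : PiLp r (fun _ : Fin d → F => ℂ))‖
              ≤ C * ((Fintype.card F : ℝ) ^ (-(d : ℝ) * (p⁻¹).toReal) *
                  ‖(WithLp.toLp p f : PiLp p (fun _ : Fin d → F => ℂ))‖))
        ↔ (((p⁻¹).toReal, (r⁻¹).toReal) ∈
            convexHull ℝ ({((0 : ℝ), (0 : ℝ)), ((0 : ℝ), (1 : ℝ)), ((1 : ℝ), (1 : ℝ)),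
              ((d : ℝ) / (2 * (d : ℝ) - k), ((d : ℝ) - k) / (2 * (d : ℝ) - k))} : Set (ℝ × ℝ)))) := by
  rintro d k - h1 ⟨h, hk⟩ h2 p r hp hr
  obtain rfl : k = 2 * h := by omega
  obtain ⟨D, rfl⟩ : ∃ D, d = 2 * h + D := ⟨d - 2 * h, by omega⟩
  have D0 : (0 : ℝ) < D := Nat.cast_pos.2 (by omega)
  have e0 : 2 * ((2 * h + D : ℕ) : ℝ) - (2 * h : ℕ) = (2 * D + 2 * h : ℕ) := by push_cast; ring
  have e1 : ((2 * h + D : ℕ) : ℝ) / (2 * D + 2 * h : ℕ) =
      ((D + 2 * h : ℕ) : ℝ) / (2 * D + 2 * h : ℕ) := by rw [add_comm]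
  have e2 : (((2 * h + D : ℕ) : ℝ) - (2 * h : ℕ)) / (2 * D + 2 * h : ℕ) =
      1 - ((D + 2 * h : ℕ) : ℝ) / (2 * D + 2 * h : ℕ) := by
    push_cast
    field_simp
    ring
  rw [e0, e1, e2]
  exact Pool.Agent.Lib.MP_a1ab69_an.Q1.exact_range D h (by omega) (by omega) p r hp hr

end Pool.Agent.Results.MP_a1ab69_an.EvenLargeK
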