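import Mathlib
import Pool.Agent.Lib.MP_a1ab69_an.Est
import Pool.Agent.Lib.MP_a1ab69_an.SharpB

set_option autoImplicit false
open scoped ENNReal

namespace Pool.Agent.Results.MP_a1ab69_an.ExactRange

/-- The variety `H_k` in `F^d`: `x_1^(j+1) + ... + x_k^(j+1) = x_(k+j)^(j+1)` for `j = 1, ..., d - k`
(coordinates are indexed from `0`, so coordinate `i ≥ k` has `j + 1 = i - k + 2`). -/
def variety (d k : ℕ) (F : Type) [Field F] [Fintype F] [DecidableEq F] : Finset (Fin d → F) :=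
  Finset.univ.filter (fun x : Fin d → F => ∀ i : Fin d, k ≤ i.val →
    ∑ l ∈ Finset.univ.filter (fun l : Fin d => l.val < k), x l ^ (i.val - k + 2)
      = x i ^ (i.val - k + 2))

/-- The average `f * dσ_k (y) = |H_k|⁻¹ ∑_{x ∈ H_k} f (y - x)`. -/
noncomputable def average (d k : ℕ) (F : Type) [Field F] [Fintype F] [DecidableEq F]
    (f : (Fin d → F) → ℂ) (y : Fin d → F) : ℂ :=
  ((variety d k F).card : ℂ)⁻¹ * ∑ x ∈ variety d k F, f (y - x)

/-- The `L^p` norm on `F^d` for the normalised counting measure: `q^(-d/p)` times the `ℓ^p` norm. -/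
noncomputable def lpNorm (d : ℕ) (F : Type) [Fintype F] (p : ℝ≥0∞) (f : (Fin d → F) → ℂ) : ℝ :=
  (Fintype.card F : ℝ) ^ (-(d : ℝ) * (p⁻¹).toReal) *
    ‖(WithLp.toLp p f : PiLp p (fun _ : Fin d → F => ℂ))‖

/-- The property `P(p, r)` of Q2: a bound `L^p → L^r` for the average, uniform over all finite
fields of large characteristic in which `-1` is a square. -/
def Bounded (d k : ℕ) (p r : ℝ≥0∞) : Prop :=
  ∃ N : ℕ, ∃ C : ℝ, ∀ (F : Type) [Field F] [Fintype F] [DecidableEq F],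
    N < ringChar F → IsSquare (-1 : F) →
      ∀ f : (Fin d → F) → ℂ, lpNorm d F r (average d k F f) ≤ C * lpNorm d F p f

/-- The conjectured region of Q2: the convex hull of `(0,0), (0,1), (1,1), S_{d,k}, T_{d,k}`. -/
def pentagon (d k : ℕ) : Set (ℝ × ℝ) :=
  convexHull ℝ ({((0 : ℝ), (0 : ℝ)), ((0 : ℝ), (1 : ℝ)), ((1 : ℝ), (1 : ℝ)),
    (((d : ℝ) * k - 2 * k + d) / (k * (2 * (d : ℝ) - k - 1)),
      ((k : ℝ) + 1) * ((d : ℝ) - k) / (k * (2 * (d : ℝ) - k - 1))),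
    ((d : ℝ) * ((k : ℝ) - 1) / (k * (2 * (d : ℝ) - k - 1)),
      ((d : ℝ) - k) * ((k : ℝ) - 1) / (k * (2 * (d : ℝ) - k - 1)))} : Set (ℝ × ℝ))

/-- The convex hull of `(0,0), (0,1), (1,1), A_{d,k}`. -/
def quad (d k : ℕ) : Set (ℝ × ℝ) :=
  convexHull ℝ ({((0 : ℝ), (0 : ℝ)), ((0 : ℝ), (1 : ℝ)), ((1 : ℝ), (1 : ℝ)),
    ((d : ℝ) / (2 * (d : ℝ) - k), ((d : ℝ) - k) / (2 * (d : ℝ) - k))} : Set (ℝ × ℝ))

open Pool.Agent.Lib.MP_a1ab69_an in
theorem variety_eq (F : Type) [Field F] [Fintype F] [DecidableEq F] : variety 5 3 F = HH F := by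
  have hfil : Finset.univ.filter (fun l : Fin 5 => l.val < 3) = {0, 1, 2} := by decide
  ext x
  simp only [variety, HH, Finset.mem_filter, Finset.mem_univ, true_and, hfil]
  have hs : ∀ n : ℕ, ∑ l ∈ ({0, 1, 2} : Finset (Fin 5)), x l ^ n = x 0 ^ n + x 1 ^ n + x 2 ^ n := by
    intro n
    rw [Finset.sum_insert (by decide), Finset.sum_insert (by decide), Finset.sum_singleton,
      add_assoc]
  simp only [hs]
  constructor
  · intro h
    exact ⟨h 3 (by decide), h 4 (by decide)⟩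
  · rintro ⟨h1, h2⟩ i hi
    fin_cases i
    · exact absurd hi (by decide)
    · exact absurd hi (by decide)
    · exact absurd hi (by decide)
    · exact h1
    · exact h2

theorem ne_zero_of_lt (F : Type) [Field F] (n : ℕ) (h0 : 0 < n) (h : n < ringChar F) :
    (n : F) ≠ 0 := by
  intro hn
  have := (ringChar.spec F n).1 hn
  exact absurd (Nat.le_of_dvd h0 this) (by omega)

open Pool.Agent.Lib.MP_a1ab69_an in
theorem neg_mem (F : Type) [Field F] [Fintype F] [DecidableEq F] :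
    ∀ x ∈ HH F, -x ∈ HH F := by
  intro x hx
  simp only [HH, Finset.mem_filter, Finset.mem_univ, true_and, Pi.neg_apply] at hx ⊢
  constructor
  · linear_combination hx.1
  · linear_combination (-1 : F) * hx.2

open Pool.Agent.Lib.MP_a1ab69_an in
theorem zero_mem (F : Type) [Field F] [Fintype F] [DecidableEq F] : (0 : Fin 5 → F) ∈ HH F := by
  simp [HH]

open Pool.Agent.Lib.MP_a1ab69_an in
theorem sufficient (p r : ℝ≥0∞) (hp : 1 ≤ p) (hr : 1 ≤ r)
    (h1 : 5 * (p⁻¹).toReal - 2 * (r⁻¹).toReal ≤ 3) (h2 : 2 * (p⁻¹).toReal ≤ 5 * (r⁻¹).toReal) :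
    Bounded 5 3 p r := by
  refine ⟨200000000, 66, ?_⟩
  intro F _ _ _ hN hsq f
  obtain ⟨i, hi⟩ := hsq
  have h2' : (2 : F) ≠ 0 := by
    have := ne_zero_of_lt F 2 (by norm_num) (by omega)
    exact_mod_cast this
  have h3' : (3 : F) ≠ 0 := by
    have := ne_zero_of_lt F 3 (by norm_num) (by omega)
    exact_mod_cast this
  have hq : 200000000 ≤ Fintype.card F := by
    have h1 : ringChar F ∣ Fintype.card F := (ringChar.spec F _).1 (FiniteField.cast_card_eq_zero F)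
    have := Nat.le_of_dvd Fintype.card_pos h1
    omega
  have hq0 : (0 : ℝ) < Fintype.card F := by exact_mod_cast Fintype.card_pos
  obtain ⟨w, hw, hw14⟩ : ∃ w : ℝ, 0 < w ∧ w ^ 14 = Fintype.card F :=
    ⟨(Fintype.card F : ℝ) ^ ((14 : ℕ) : ℝ)⁻¹, Real.rpow_pos_of_pos hq0 _,
      Real.rpow_inv_natCast_pow hq0.le (by norm_num)⟩
  have e42 : w ^ 42 = (Fintype.card F : ℝ) ^ 3 := by rw [← hw14]; ring
  have e70 : w ^ 70 = (Fintype.card F : ℝ) ^ 5 := by rw [← hw14]; ring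
  have hb := Sharp.op_bound (HH F) (neg_mem F) w hw (by rw [e70]; simp)
    (by rw [e42]; exact card_HH_ge hq h2' h3')
    (fun φ hφ => by
      rw [hw14, e42]; exact L2_HH (by omega) h2' h3' i (by rw [sq, ← hi]) φ hφ)
    p r hp hr h1 h2 f
  have ex : ∀ a : ℝ, (w ^ 70) ^ (-a) = (Fintype.card F : ℝ) ^ (-((5 : ℕ) : ℝ) * a) := by
    intro a
    rw [e70, ← Real.rpow_natCast, ← Real.rpow_mul hq0.le]
    congr 1
    ring
  rw [ex, ex] at hb
  unfold lpNorm average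
  rw [variety_eq]
  exact hb

open Pool.Agent.Lib.MP_a1ab69_an in
theorem necessary (p r : ℝ≥0∞) (hp : 1 ≤ p) (hr : 1 ≤ r) (h : Bounded 5 3 p r) :
    5 * (p⁻¹).toReal - 2 * (r⁻¹).toReal ≤ 3 ∧ 2 * (p⁻¹).toReal ≤ 5 * (r⁻¹).toReal := by
  obtain ⟨N, C, hC⟩ := h
  obtain ⟨x0, x1⟩ := Sharp.inv_mem p hp
  obtain ⟨y0, y1⟩ := Sharp.inv_mem r hr
  have main : ∀ l : ℕ, l.Prime → N < l → l ≡ 1 [MOD 4] →
      (l : ℝ) ^ (5 * (p⁻¹).toReal - 2 * (r⁻¹).toReal - 3) ≤ 6 * |C| ∧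
      (l : ℝ) ^ (2 * (p⁻¹).toReal - 5 * (r⁻¹).toReal) ≤ 6 * |C| := by
    intro l hl hN hmod
    have : Fact l.Prime := ⟨hl⟩
    have hsq : IsSquare (-1 : ZMod l) := by
      rw [ZMod.exists_sq_eq_neg_one_iff]
      unfold Nat.ModEq at hmod
      omega
    have hb := hC (ZMod l) (by rw [ZMod.ringChar_zmod_n]; exact hN) hsq
    unfold lpNorm average at hb
    rw [variety_eq, ZMod.card] at hb
    set x := (p⁻¹).toReal with hx
    set y := (r⁻¹).toReal with hy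
    set H := HH (ZMod l) with hH
    have hq : (0 : ℝ) < l := by exact_mod_cast hl.pos
    have hne : H.Nonempty := ⟨0, zero_mem _⟩
    have hc0 : (0 : ℝ) < H.card := by exact_mod_cast hne.card_pos
    have hc : (H.card : ℝ) ≤ 6 * (l : ℝ) ^ 3 := by
      have := card_HH_le (F := ZMod l)
      rw [ZMod.card] at this
      exact_mod_cast this
    have six : ∀ a : ℝ, 0 ≤ a → a ≤ 1 → (H.card : ℝ) ^ a ≤ 6 * (l : ℝ) ^ (3 * a) := by
      intro a a0 a1
      calc (H.card : ℝ) ^ a ≤ (6 * (l : ℝ) ^ 3) ^ a := Real.rpow_le_rpow hc0.le hc a0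
        _ = 6 ^ a * (l : ℝ) ^ (3 * a) := by
          rw [Real.mul_rpow (by norm_num) (by positivity), ← Real.rpow_natCast,
            ← Real.rpow_mul hq.le]; norm_num
        _ ≤ 6 * (l : ℝ) ^ (3 * a) := by
          gcongr
          simpa using Real.rpow_le_rpow_of_exponent_le (by norm_num : (1 : ℝ) ≤ 6) a1
    have absC : ∀ (A B B' : ℝ), 0 ≤ A → 0 ≤ B → B ≤ B' → C * (A * B) ≤ |C| * (A * B') := by
      intro A B B' hA hB hBB
      calc C * (A * B) ≤ |C| * (A * B) := by gcongr; exact le_abs_self C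
        _ ≤ _ := by gcongr
    constructor
    · have h1 := hb (fun u => if u = 0 then 1 else 0)
      have u1 := Sharp.nrm_le p hp (fun u : Fin 5 → ZMod l => if u = 0 then (1 : ℂ) else 0) {0}
        (fun u => by split_ifs <;> simp) (fun u hu => by simp at hu; simp [hu])
      have l1 := Sharp.nrm_ge r hr
        (fun y : Fin 5 → ZMod l => (H.card : ℂ)⁻¹ * ∑ v ∈ H, if y - v = 0 then (1 : ℂ) else 0) H hne
        (H.card : ℝ)⁻¹ (by positivity) (fun u hu => by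
          simp [sub_eq_zero, hu])
      simp only [Finset.card_singleton, Nat.cast_one, Real.one_rpow] at u1
      have h2 : (l : ℝ) ^ (-((5 : ℕ) : ℝ) * y) * ((H.card : ℝ)⁻¹ * (H.card : ℝ) ^ y) ≤
          |C| * ((l : ℝ) ^ (-((5 : ℕ) : ℝ) * x) * 1) :=
        (mul_le_mul_of_nonneg_left l1 (by positivity)).trans
          (h1.trans (absC _ _ _ (by positivity) (Sharp.nrm_nonneg p hp _) u1))
      have h3 := six (1 - y) (by linarith) (by linarith)
      have e1 : (H.card : ℝ)⁻¹ * (H.card : ℝ) ^ y * (H.card : ℝ) ^ (1 - y) = 1 := by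
        rw [mul_assoc, ← Real.rpow_add hc0]; simp [hc0.ne']
      have e2 : (l : ℝ) ^ (5 * x - 2 * y - 3) * (l : ℝ) ^ (-((5 : ℕ) : ℝ) * x) *
          (l : ℝ) ^ (3 * (1 - y)) = (l : ℝ) ^ (-((5 : ℕ) : ℝ) * y) := by
        rw [← Real.rpow_add hq, ← Real.rpow_add hq]; congr 1; push_cast; ring
      have h4 : (l : ℝ) ^ (-((5 : ℕ) : ℝ) * y) ≤
          |C| * ((l : ℝ) ^ (-((5 : ℕ) : ℝ) * x) * 1) * (6 * (l : ℝ) ^ (3 * (1 - y))) := by
        calc _ = (l : ℝ) ^ (-((5 : ℕ) : ℝ) * y) * ((H.card : ℝ)⁻¹ * (H.card : ℝ) ^ y) *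
              (H.card : ℝ) ^ (1 - y) := by rw [mul_assoc, e1, mul_one]
          _ ≤ _ := mul_le_mul h2 h3 (by positivity) (by positivity)
      rw [← e2] at h4
      have pos : 0 < (l : ℝ) ^ (-((5 : ℕ) : ℝ) * x) * (l : ℝ) ^ (3 * (1 - y)) := by positivity
      refine le_of_mul_le_mul_right ?_ pos
      linarith
    · have h1 := hb (fun u => if u ∈ H then 1 else 0)
      have u1 := Sharp.nrm_le p hp (fun u : Fin 5 → ZMod l => if u ∈ H then (1 : ℂ) else 0) H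
        (fun u => by split_ifs <;> simp) (fun u hu => by simp [hu])
      have l1 := Sharp.nrm_ge r hr
        (fun y : Fin 5 → ZMod l => (H.card : ℂ)⁻¹ * ∑ v ∈ H, if y - v ∈ H then (1 : ℂ) else 0) {0}
        (by simp) 1 zero_le_one (fun u hu => by
          have hu0 : u = 0 := by simpa using hu
          have : ∀ v ∈ H, (if u - v ∈ H then (1 : ℂ) else 0) = 1 := fun v hv => by
            rw [hu0, zero_sub, if_pos (neg_mem _ v hv)]
          have hc' : (H.card : ℂ) ≠ 0 := by exact_mod_cast hne.card_pos.ne'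
          rw [Finset.sum_congr rfl this]
          simp [hc'])
      simp only [Finset.card_singleton, Nat.cast_one, Real.one_rpow, mul_one] at l1
      have h2 : (l : ℝ) ^ (-((5 : ℕ) : ℝ) * y) * 1 ≤
          |C| * ((l : ℝ) ^ (-((5 : ℕ) : ℝ) * x) * (6 * (l : ℝ) ^ (3 * x))) :=
        (mul_le_mul_of_nonneg_left l1 (by positivity)).trans
          (h1.trans (absC _ _ _ (by positivity) (Sharp.nrm_nonneg p hp _) (u1.trans (six x x0 x1))))
      have e2 : (l : ℝ) ^ (2 * x - 5 * y) * ((l : ℝ) ^ (-((5 : ℕ) : ℝ) * x) *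
          (l : ℝ) ^ (3 * x)) = (l : ℝ) ^ (-((5 : ℕ) : ℝ) * y) := by
        rw [← Real.rpow_add hq, ← Real.rpow_add hq]; congr 1; push_cast; ring
      rw [← e2] at h2
      have pos : 0 < (l : ℝ) ^ (-((5 : ℕ) : ℝ) * x) * (l : ℝ) ^ (3 * x) := by positivity
      refine le_of_mul_le_mul_right ?_ pos
      linarith
  constructor
  · have := Sharp.exp_nonpos _ _ N (fun l a b c => (main l a b c).1)
    linarith
  · have := Sharp.exp_nonpos _ _ N (fun l a b c => (main l a b c).2)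
    linarith

theorem exact_range (p r : ℝ≥0∞) (hp : 1 ≤ p) (hr : 1 ≤ r) :
    Bounded 5 3 p r ↔ ((p⁻¹).toReal, (r⁻¹).toReal) ∈ quad 5 3 := by
  have e : quad 5 3 = convexHull ℝ ({((0 : ℝ), (0 : ℝ)), ((0 : ℝ), (1 : ℝ)), ((1 : ℝ), (1 : ℝ)),
      ((5 / 7 : ℝ), (2 / 7 : ℝ))} : Set (ℝ × ℝ)) := by
    unfold quad
    norm_num
  rw [e, Pool.Agent.Lib.MP_a1ab69_an.Sharp.mem_quad_iff _ _
    (Pool.Agent.Lib.MP_a1ab69_an.Sharp.inv_mem p hp).1
    (Pool.Agent.Lib.MP_a1ab69_an.Sharp.inv_mem r hr).2]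
  exact ⟨necessary p r hp hr, fun h => sufficient p r hp hr h.1 h.2⟩

theorem not_mem : ((7 / 10 : ℝ), (7 / 20 : ℝ)) ∉ pentagon 5 3 := by
  intro h
  have hconv : Convex ℝ {z : ℝ × ℝ | z.1 - z.2 ≤ 1 / 3} := by
    apply convex_halfSpace_le (f := fun z : ℝ × ℝ => z.1 - z.2)
    constructor
    · intro x y; simp only [Prod.fst_add, Prod.snd_add]; ring
    · intro c x; simp only [Prod.smul_fst, Prod.smul_snd, smul_eq_mul]; ring
  have := convexHull_min (t := {z : ℝ × ℝ | z.1 - z.2 ≤ 1 / 3}) (by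
    intro z hz
    simp only [Set.mem_insert_iff, Set.mem_singleton_iff] at hz
    rcases hz with rfl | rfl | rfl | rfl | rfl <;> simp only [Set.mem_ofPred_eq] <;> norm_num)
    hconv h
  simp only [Set.mem_ofPred_eq] at this
  norm_num at this

/-- A counterexample to Q2 with its exact range: at the admissible pair `d = 5`, `k = 3` the range
is the quadrilateral with vertex `A_{5,3}`, which contains a bounded pair outside the pentagon. -/
theorem result :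
    ∃ d k : ℕ, ∃ p₀ r₀ : ℝ≥0∞, d = 5 ∧ k = 3 ∧ p₀ = 10 / 7 ∧ r₀ = 20 / 7 ∧
      3 ≤ k ∧ k + 2 ≤ d ∧ Odd k ∧ 1 ≤ p₀ ∧ 1 ≤ r₀ ∧
      Bounded d k p₀ r₀ ∧ ((p₀⁻¹).toReal, (r₀⁻¹).toReal) ∉ pentagon d k ∧
      ∀ p r : ℝ≥0∞, 1 ≤ p → 1 ≤ r →
        (Bounded d k p r ↔ ((p⁻¹).toReal, (r⁻¹).toReal) ∈ quad d k) := by
  have hp1 : (1 : ℝ≥0∞) ≤ 10 / 7 := by
    rw [ENNReal.le_div_iff_mul_le (by simp) (by simp)]; norm_num
  have hr1 : (1 : ℝ≥0∞) ≤ 20 / 7 := by
    rw [ENNReal.le_div_iff_mul_le (by simp) (by simp)]; norm_num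
  have hp : ((10 / 7 : ℝ≥0∞)⁻¹).toReal = 7 / 10 := by
    rw [ENNReal.toReal_inv, ENNReal.toReal_div]; norm_num
  have hr : ((20 / 7 : ℝ≥0∞)⁻¹).toReal = 7 / 20 := by
    rw [ENNReal.toReal_inv, ENNReal.toReal_div]; norm_num
  have hb := sufficient _ _ hp1 hr1 (by rw [hp, hr]; norm_num) (by rw [hp, hr]; norm_num)
  refine ⟨5, 3, 10 / 7, 20 / 7, rfl, rfl, rfl, rfl, le_rfl, le_rfl, by decide, hp1, hr1, hb, ?_,
    exact_range⟩
  rw [hp, hr]
  exact not_mem

end Pool.Agent.Results.MP_a1ab69_an.ExactRange
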